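import Mathlib
import Pool.Agent.Lib.BF3S.Bridge

/-!
# A Banach function algebra with global dimension and bidimension three

There is a commutative semisimple Banach algebra `A` with `dg A = db A = 3`. The definitions are
in `Pool.Agent.Lib.BF3S.Spec`.

The algebra is `A = I(F₁) ⊕ ℓ¹(X)`, where `X` is the set of the pairs `(s, τ)` of a finite
sequence `s` of natural numbers and a function `τ` from the natural numbers to finite sequences,
`I(F₁)` is an atomic sequence space on `T = X × ℕ`, and the product is the pointwise product of
functions on `T ∪ X`. The final step of the resolution of a certain module is a morphism that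
is not a coretraction, but the bimodule `A₊` has a resolution of length three.
-/

namespace Pool.Agent.Results.MP_bd1fca_an.DimensionThree

open Pool.Agent.Lib.BF3S

theorem result : ∃ (A : Type) (_ : NonUnitalNormedCommRing A) (_ : NormedSpace ℂ A),
    DimThree A := by
  refine ⟨Pool.Agent.Lib.BF3.AA, inferInstance, inferInstance, inferInstance, inferInstance,
    inferInstance, (semisimple_iff _).2 Pool.Agent.Lib.BF3.semisimple_AA, ?_, ?_⟩
  · rw [dg_eq]
    exact Pool.Agent.Lib.BF3.dg_AA
  · have h := dbEq Pool.Agent.Lib.BF3.AA
    rw [Pool.Agent.Lib.BF3.db_AA] at h
    exact h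

end Pool.Agent.Results.MP_bd1fca_an.DimensionThree
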